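import Mathlib
import Pool.Agent.UIP.Asm

set_option autoImplicit false

/-!
There are absolute constants `c, C > 0`, `c C ≤ 1/2`, such that for every `ε > 0`, every large
modulus `m` (no condition on `m`) and all real `t`, `a`, `b` with `1 ≤ t ≤ c log log m`,
`ε ≤ b ≤ t`, `0 ≤ a ≤ (1 - ε) b`, at least `exp (- exp (C t)) (b - a) φ(m)` of the classes modulo
`m` and coprime to `m` contain exactly one prime `q ≤ t φ(m) log m`, and this prime lies between
`a φ(m) log m` and `b φ(m) log m`. In particular this `q` is the least prime of its class.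
-/

namespace Pool.Agent.Results.MP_e1dc24_nt.EverySizeEveryModulus

open Classical in
theorem result : ∃ c C : ℝ, 0 < c ∧ 0 < C ∧ c * C ≤ 1 / 2 ∧ ∀ ε : ℝ, 0 < ε →
    ∃ m₀ : ℕ, ∀ m : ℕ, m₀ ≤ m → ∀ t a b : ℝ, 1 ≤ t → t ≤ c * Real.log (Real.log m) →
      0 ≤ a → a ≤ (1 - ε) * b → ε ≤ b → b ≤ t →
      Real.exp (-Real.exp (C * t)) * (b - a) * (m.totient : ℝ) ≤
        (((Finset.range m).filter (fun k => k.Coprime m ∧
          ∃ q : ℕ, q.Prime ∧ q ≡ k [MOD m] ∧ a * (m.totient * Real.log m) < q ∧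
            (q : ℝ) ≤ b * (m.totient * Real.log m) ∧
            ∀ q' : ℕ, q'.Prime → q' ≡ k [MOD m] → (q' : ℝ) ≤ t * (m.totient * Real.log m) →
              q' = q)).card : ℝ) :=
  UIP.final

end Pool.Agent.Results.MP_e1dc24_nt.EverySizeEveryModulus
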