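import Mathlib
import Pool.Agent.FCT.PartV

set_option autoImplicit false

/-!
Every size of the least prime in a FIXED residue class, for a positive proportion of the moduli, with
no prime in finitely many other fixed classes. There are absolute constants `c, C > 0`, `c C ≤ 1/2`,
such that for every finite set `𝓑` of nonzero integers, `a ∈ 𝓑`, `ε > 0`, all `x ≥ x₀(𝓑, ε)` and all
real `t ≥ 1`, `t |𝓑| ≤ c loglog x`, `ε ≤ β ≤ t`, `0 ≤ α ≤ (1 - ε) β`, at least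
`exp (-exp (C t |𝓑|)) (β - α) (φ(R)/R) x` of the moduli `n ∈ (x, 2 x]`, `R = ∏ |b|`, are coprime to all
`b ∈ 𝓑` and have exactly one prime `q ∉ 𝓑` up to `t n log n` which is congruent modulo `n` to an element
of `𝓑`; it is `≡ a (mod n)` and lies in `(α n log n, β n log n]`.
-/

namespace Pool.Agent.Results.MP_e1dc24_nt.EverySizeFixedClasses

open Classical in
theorem result :
    ∃ c C : ℝ, 0 < c ∧ 0 < C ∧ c * C ≤ 1 / 2 ∧ ∀ (𝓑 : Finset ℤ) (a : ℤ) (ε : ℝ),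
      0 ∉ 𝓑 → a ∈ 𝓑 → 0 < ε → ∃ x₀ : ℕ, ∀ x : ℕ, x₀ ≤ x → ∀ t α β : ℝ,
        1 ≤ t → t * 𝓑.card ≤ c * Real.log (Real.log x) →
        0 ≤ α → α ≤ (1 - ε) * β → ε ≤ β → β ≤ t →
        Real.exp (-Real.exp (C * (t * 𝓑.card))) * (β - α) *
            (((∏ b ∈ 𝓑, b.natAbs).totient : ℝ) / ((∏ b ∈ 𝓑, b.natAbs : ℕ) : ℝ) * x) ≤
          (((Finset.Ioc x (2 * x)).filter (fun n : ℕ => (∀ b ∈ 𝓑, IsCoprime b (n : ℤ)) ∧
            ∃ q : ℕ, q.Prime ∧ (q : ℤ) ∉ 𝓑 ∧ (q : ℤ) ≡ a [ZMOD n] ∧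
              α * (n * Real.log n) < q ∧ (q : ℝ) ≤ β * (n * Real.log n) ∧
              ∀ q' : ℕ, q'.Prime → (q' : ℤ) ∉ 𝓑 → (∃ b ∈ 𝓑, (q' : ℤ) ≡ b [ZMOD n]) →
                (q' : ℝ) ≤ t * (n * Real.log n) → q' = q)).card : ℝ) := by
  obtain ⟨c, C, hc, hC, hcC, h⟩ := Pool.Agent.FCT.finV
  refine ⟨c, C, hc, hC, hcC, fun 𝓑 a ε h0 ha hε => ?_⟩
  obtain ⟨x₀, h⟩ := h 𝓑 a ε h0 ha hε
  refine ⟨x₀, fun x hx t α β h1 h2 h3 h4 h5 h6 => ?_⟩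
  obtain ⟨A, hA, hgood, hcard⟩ := h x hx t α β h1 h2 h3 h4 h5 h6
  refine hcard.trans ?_
  refine Nat.cast_le.2 (Finset.card_le_card (fun n hn => ?_))
  rw [Finset.mem_filter]
  exact ⟨hA hn, hgood n hn⟩

end Pool.Agent.Results.MP_e1dc24_nt.EverySizeFixedClasses
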