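import Mathlib
import Pool.Agent.UNI.FGAP

set_option autoImplicit false

/-!
Put `R(x) = log x (loglog x)^2 loglogloglog x / (logloglog x)^2`.  There is an absolute constant
`c₀ > 0` with the following property.  For every `κ > 0` and `B`, all `x ≥ x₀(κ, B)`, ALL moduli
`1 ≤ m ≤ x ^ B` and all `y`, the interval `[y, y + x]` contains some `c` coprime to `m` such that
the progression `c, c + m, c + 2 m, ...` has no prime up to
`c + c₀ φ(m) R(x) / (1 + (loglog x / logloglog x) s)`, where `s` is the sum of `1 / p` over the prime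
factors `p` of `m` with `exp ((1 - κ) loglog x loglogloglog x / logloglog x) < p ≤ log x`.

For `c < m` this says that the least prime `p ≡ c (mod m)` is larger than that bound.
For `m = 1` (then `s = 0`) it says that the first prime `q ≥ c` is larger than `c + c₀ R(x)`: every
interval `[y, y + x]` meets a gap between consecutive primes of length more than `c₀ R(x)`.
-/

namespace Pool.Agent.Results.MP_e1dc24_nt.LargeGapsEveryModulus

theorem result :
    ∃ c₀ : ℝ, 0 < c₀ ∧ ∀ κ : ℝ, 0 < κ → ∀ B : ℕ, ∃ x₀ : ℕ, ∀ x m : ℕ, x₀ ≤ x → 1 ≤ m →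
      m ≤ x ^ B → ∀ y : ℕ, ∃ c : ℕ, y ≤ c ∧ c ≤ y + x ∧ c.Coprime m ∧
        ∀ q : ℕ, q.Prime → q ≡ c [MOD m] → c ≤ q →
          (c : ℝ) + c₀ * (m.totient * (Real.log x * Real.log (Real.log x) ^ 2 *
            Real.log (Real.log (Real.log (Real.log x))) /
              (Real.log (Real.log (Real.log x))) ^ 2)) /
            (1 + Real.log (Real.log x) / Real.log (Real.log (Real.log x)) *
              ∑ p ∈ m.primeFactors.filter (fun p : ℕ =>
                Real.exp ((1 - κ) * (Real.log (Real.log x) *
                  Real.log (Real.log (Real.log (Real.log x))) /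
                    Real.log (Real.log (Real.log x)))) < (p : ℝ) ∧ (p : ℝ) ≤ Real.log x),
                (1 : ℝ) / p) < q :=
  Pool.Agent.UNI.gapV

end Pool.Agent.Results.MP_e1dc24_nt.LargeGapsEveryModulus
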