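import Mathlib
import Pool.Agent.FXC.COV
import Pool.Agent.FXC.SIV

set_option autoImplicit false

/-!
Put `R(x) = log x (loglog x)^2 loglogloglog x / (logloglog x)^2`.  There are absolute constants
`c₀ > 0` and `x₀` with the following property.  For all `x ≥ x₀`, all integers `a ≠ 0` and `H ≥ 1` with
`H rad(a) ≤ c₀ log x` (`rad(a)` is the product of the prime factors of `a`) and all `y ≥ 2 H |a|`, the
interval `[y, y + x]` contains a modulus `m` such that for ALL integers `h` with `0 < |h| ≤ H` at once: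
`h a` is coprime to `m`, and every prime `q ≡ h a (mod m)`, `q ≠ h a`, is larger than
`c₀ m (log x + R(x) / H)`.

For `H = 1` and a fixed `a` this is a lower bound for the least prime `≡ a` modulo `m`, for a FIXED
residue class and some modulus `m` in every interval `[y, y + x]`.
-/

namespace Pool.Agent.Results.MP_e1dc24_nt.LargeGapsFixedClass

theorem result :
    ∃ c₀ : ℝ, 0 < c₀ ∧ ∃ x₀ : ℕ, ∀ x : ℕ, x₀ ≤ x → ∀ a : ℤ, a ≠ 0 → ∀ H : ℕ, 1 ≤ H →
      (H : ℝ) * ((∏ p ∈ a.natAbs.primeFactors, p : ℕ) : ℝ) ≤ c₀ * Real.log x →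
      ∀ y : ℕ, 2 * H * a.natAbs ≤ y → ∃ m : ℕ, y ≤ m ∧ m ≤ y + x ∧
        ∀ h : ℤ, h ≠ 0 → |h| ≤ H → IsCoprime (h * a) (m : ℤ) ∧
          ∀ q : ℕ, q.Prime → (q : ℤ) ≡ h * a [ZMOD m] → (q : ℤ) ≠ h * a →
            c₀ * (m * (Real.log x + Real.log x * Real.log (Real.log x) ^ 2 *
              Real.log (Real.log (Real.log (Real.log x))) /
                (Real.log (Real.log (Real.log x))) ^ 2 / H)) < q :=
  Pool.Agent.FXC.fgv (Pool.Agent.FXC.siv Pool.Agent.FXC.t_COV)

end Pool.Agent.Results.MP_e1dc24_nt.LargeGapsFixedClass
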